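import Mathlib

set_option autoImplicit false

/-!
# Steiner 2-systems with 2-transitive group preserving a Steiner 3-system: all block sizes

For every field `K` of characteristic two with more than two elements and every `K`-vector space
`V` of dimension at least two, the lines of the affine space `V` form a Steiner 2-system with
2-transitive automorphism group, and this group preserves the Steiner 3-system of all
`{a, b, c, a + b + c}`.
-/

namespace Pool.Agent.Results.MP_19fe04_lc.AllFieldsOfCharTwo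

/-- Steiner `k`-systems. -/
def Steiner {Ω : Type} (k : ℕ) (B : Set (Set Ω)) : Prop :=
  (∀ b ∈ B, ((k + 1 : ℕ) : ℕ∞) ≤ b.encard) ∧ B.Nontrivial ∧
    ∀ s : Finset Ω, s.card = k → ∃! b, b ∈ B ∧ (s : Set Ω) ⊆ b

/-- `g` maps `B` onto `B`. -/
def Preserves {Ω : Type} (g : Equiv.Perm Ω) (B : Set (Set Ω)) : Prop :=
  (fun b => g '' b) '' B = B

/-- The automorphism group of `B` is `k`-transitive. -/
def AutTransitive {Ω : Type} (k : ℕ) (B : Set (Set Ω)) : Prop :=
  ∀ x y : Fin k ↪ Ω, ∃ g : Equiv.Perm Ω, Preserves g B ∧ ∀ i, g (x i) = y i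

section

variable (K : Type) [Field K] {V : Type} [AddCommGroup V] [Module K V]

/-- a line of the affine space -/
def line (a v : V) : Set V := {x | ∃ t : K, x = a + t • v}

variable (V) in
/-- the lines of the affine space -/
def Ls : Set (Set V) := {L | ∃ a v, v ≠ 0 ∧ L = line K a v}

variable (V) in
/-- the sets `{a, b, c, a + b + c}` -/
def Qs : Set (Set V) := {S | ∃ a b c, a ≠ b ∧ a ≠ c ∧ b ≠ c ∧ S = {a, b, c, a + b + c}}

variable {K}

lemma two [CharP K 2] (x : V) : x + x = 0 := by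
  rw [← two_smul K x, show (2 : K) = 0 from CharTwo.two_eq_zero, zero_smul]

lemma line_eq {L : Set V} (hL : L ∈ Ls K V) {x y : V} (hx : x ∈ L) (hy : y ∈ L) (h : x ≠ y) :
    L = line K x (y - x) := by
  obtain ⟨a, v, -, rfl⟩ := hL
  obtain ⟨s, rfl⟩ := hx
  obtain ⟨t, rfl⟩ := hy
  have hst : t - s ≠ 0 := fun e => h (by rw [sub_eq_zero.1 e])
  ext z
  constructor
  · rintro ⟨r, rfl⟩
    refine ⟨(r - s) / (t - s), ?_⟩
    have : a + t • v - (a + s • v) = (t - s) • v := by module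
    rw [this, smul_smul, div_mul_cancel₀ _ hst]; module
  · rintro ⟨r, rfl⟩
    exact ⟨s + r * (t - s), by module⟩

lemma line_mem {x y : V} (h : x ≠ y) : line K x (y - x) ∈ Ls K V :=
  ⟨_, _, sub_ne_zero.2 h.symm, rfl⟩
lemma left_mem (x v : V) : x ∈ line K x v := ⟨0, by simp⟩
lemma right_mem (x y : V) : y ∈ line K x (y - x) := ⟨1, by simp⟩

variable (K) in
/-- the configuration defining parallelograms -/
def R (a b c d : V) : Prop :=
  ∃ L1 ∈ Ls K V, ∃ L2 ∈ Ls K V, ∃ L3 ∈ Ls K V, ∃ L4 ∈ Ls K V, ∃ L5 ∈ Ls K V, ∃ x y,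
    a ∈ L1 ∧ b ∈ L1 ∧ a ∈ L2 ∧ c ∈ L2 ∧
    x ∈ L1 ∧ y ∈ L2 ∧ x ≠ y ∧ x ∈ L3 ∧ y ∈ L3 ∧ d ∈ L3 ∧ c ∈ L4 ∧ d ∈ L4 ∧ b ∈ L5 ∧ d ∈ L5 ∧
    Disjoint L4 L1 ∧ Disjoint L5 L2

lemma indep {a b c : V} (hab : a ≠ b) (h : ¬ ∃ L ∈ Ls K V, a ∈ L ∧ b ∈ L ∧ c ∈ L) (s t : K)
    (e : s • (b - a) + t • (c - a) = 0) : s = 0 ∧ t = 0 := by
  have ht : t = 0 := by
    by_contra ht
    refine h ⟨_, line_mem hab, left_mem _ _, right_mem _ _, -s / t, ?_⟩
    apply smul_right_injective V ht
    simp only [smul_add, smul_smul, mul_div_cancel₀ _ ht]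
    linear_combination (norm := module) e
  refine ⟨?_, ht⟩
  rw [ht, zero_smul, add_zero] at e
  exact (smul_eq_zero.1 e).resolve_right (sub_ne_zero.2 hab.symm)

lemma R_ex [CharP K 2] (hK : ∃ w : K, w ≠ 0 ∧ w ≠ 1) {a b c : V} (hab : a ≠ b) (hac : a ≠ c)
    (h : ¬ ∃ L ∈ Ls K V, a ∈ L ∧ b ∈ L ∧ c ∈ L) : R K a b c (a + b + c) := by
  obtain ⟨w, w0, w1⟩ := hK
  have w2 : 1 - w ≠ 0 := sub_ne_zero.2 w1.symm
  have hxy : a + w⁻¹ • (b - a) ≠ a + (1 - w)⁻¹ • (c - a) := fun e =>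
    inv_ne_zero w0 (indep hab h w⁻¹ (-(1 - w)⁻¹) (by linear_combination (norm := module) e)).1
  have two' := two (K := K) (V := V)
  refine ⟨_, line_mem hab, _, line_mem hac, _, line_mem hxy, line K c (b - a),
    ⟨_, _, sub_ne_zero.2 hab.symm, rfl⟩, line K b (c - a), ⟨_, _, sub_ne_zero.2 hac.symm, rfl⟩,
    _, _, left_mem _ _, right_mem _ _, left_mem _ _, right_mem _ _, ⟨_, rfl⟩, ⟨_, rfl⟩, hxy,
    left_mem _ _, right_mem _ _, ⟨1 - w, ?_⟩, left_mem _ _, ⟨1, ?_⟩, left_mem _ _, ⟨1, ?_⟩,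
    ?_, ?_⟩
  · have e1 : (1 - w) • (1 - w)⁻¹ • (c - a) = c - a := by
      rw [smul_smul, mul_inv_cancel₀ w2, one_smul]
    have e2 : w • w⁻¹ • (b - a) = b - a := by rw [smul_smul, mul_inv_cancel₀ w0, one_smul]
    linear_combination (norm := module) two' a - e1 - e2
  · linear_combination (norm := module) two' a
  · linear_combination (norm := module) two' a
  · rw [Set.disjoint_left]
    rintro z ⟨s, rfl⟩ ⟨t, e⟩
    exact one_ne_zero (indep hab h (s - t) 1 (by linear_combination (norm := module) e)).2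
  · rw [Set.disjoint_left]
    rintro z ⟨s, rfl⟩ ⟨t, e⟩
    exact one_ne_zero (indep hab h 1 (s - t) (by linear_combination (norm := module) e)).1

lemma R_uniq [CharP K 2] {a b c d : V} (hab : a ≠ b) (hac : a ≠ c) (h : R K a b c d) :
    d = a + b + c := by
  have two' := two (K := K) (V := V)
  obtain ⟨L1, h1, L2, h2, L3, h3, L4, h4, L5, h5, x, y, a1, b1, a2, c2, x1, y2, hxy, x3, y3, d3,
    c4, d4, b5, d5, e1, e2⟩ := h
  have hcd : c ≠ d := fun e => Set.disjoint_left.1 e2 d5 (e ▸ c2)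
  have hbd : b ≠ d := fun e => Set.disjoint_left.1 e1 d4 (e ▸ b1)
  rw [line_eq h1 a1 b1 hab] at x1 e1
  rw [line_eq h2 a2 c2 hac] at y2 e2
  rw [line_eq h3 x3 y3 hxy] at d3
  rw [line_eq h4 c4 d4 hcd] at e1
  rw [line_eq h5 b5 d5 hbd] at e2
  obtain ⟨s, rfl⟩ := x1
  obtain ⟨t, rfl⟩ := y2
  obtain ⟨r, hd⟩ := d3
  obtain ⟨α, β, hd⟩ : ∃ α β : K, d = a + α • (b - a) + β • (c - a) :=
    ⟨s - r * s, r * t, by rw [hd]; module⟩
  have hβ : β = 1 := by
    by_contra hβ
    have hβ' : 1 - β ≠ 0 := sub_ne_zero.2 (Ne.symm hβ)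
    refine Set.disjoint_left.1 e1 ⟨(1 - β)⁻¹, rfl⟩ ⟨(1 - β)⁻¹ * α, ?_⟩
    have e : (1 - β)⁻¹ • (1 - β) • (c - a) = c - a := by
      rw [smul_smul, inv_mul_cancel₀ hβ', one_smul]
    rw [hd]
    linear_combination (norm := module) -e
  have hα : α = 1 := by
    by_contra hα
    have hα' : 1 - α ≠ 0 := sub_ne_zero.2 (Ne.symm hα)
    refine Set.disjoint_left.1 e2 ⟨(1 - α)⁻¹, rfl⟩ ⟨(1 - α)⁻¹ * β, ?_⟩
    have e : (1 - α)⁻¹ • (1 - α) • (b - a) = b - a := by
      rw [smul_smul, inv_mul_cancel₀ hα', one_smul]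
    rw [hd]
    linear_combination (norm := module) -e
  rw [hd, hα, hβ]
  linear_combination (norm := module) -two' a

lemma ne4 {V : Type} [AddCommGroup V] (two : ∀ x : V, x + x = 0) {a b c : V} (h : b ≠ c) :
    a + b + c ≠ a := fun e => h (by
  have h1 : b + c = 0 := by
    have : a + (b + c) = a + 0 := by rw [← add_assoc, e, add_zero]
    exact add_left_cancel this
  have h2 := two c
  exact add_right_cancel (h1.trans h2.symm))

lemma affine_nc [CharP K 2] (hK : ∃ w : K, w ≠ 0 ∧ w ≠ 1) (g : Equiv.Perm V)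
    (hg : ∀ L ∈ Ls K V, g '' L ∈ Ls K V) {a b c : V} (hab : a ≠ b)
    (hac : a ≠ c) (h : ¬ ∃ L ∈ Ls K V, a ∈ L ∧ b ∈ L ∧ c ∈ L) :
    g (a + b + c) = g a + g b + g c := by
  have m : ∀ {L : Set V} {x : V}, x ∈ L → g x ∈ g '' L := fun h => Set.mem_image_of_mem g h
  apply R_uniq (K := K) (g.injective.ne hab) (g.injective.ne hac)
  obtain ⟨L1, h1, L2, h2, L3, h3, L4, h4, L5, h5, x, y, a1, b1, a2, c2, x1, y2, hxy, x3, y3, d3,
    c4, d4, b5, d5, e1, e2⟩ := R_ex hK hab hac h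
  exact ⟨_, hg _ h1, _, hg _ h2, _, hg _ h3, _, hg _ h4, _, hg _ h5, g x, g y, m a1, m b1,
    m a2, m c2, m x1, m y2, g.injective.ne hxy, m x3, m y3, m d3, m c4, m d4, m b5, m d5,
    (Set.disjoint_image_iff g.injective).2 e1, (Set.disjoint_image_iff g.injective).2 e2⟩

lemma affine [CharP K 2] (hK : ∃ w : K, w ≠ 0 ∧ w ≠ 1) (hV : ∀ L ∈ Ls K V, ∃ p, p ∉ L)
    (g : Equiv.Perm V) (hg : ∀ L ∈ Ls K V, g '' L ∈ Ls K V) {a b c : V} (hab : a ≠ b)
    (hac : a ≠ c) : g (a + b + c) = g a + g b + g c := by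
  have two' := two (K := K) (V := V)
  by_cases h : ∃ L ∈ Ls K V, a ∈ L ∧ b ∈ L ∧ c ∈ L
  · obtain ⟨L, hL, ha, hb, hc⟩ := h
    obtain ⟨p, hp⟩ := hV L hL
    have hpa : a ≠ p := fun e => hp (e ▸ ha)
    have n1 : ¬ ∃ L ∈ Ls K V, a ∈ L ∧ b ∈ L ∧ p ∈ L := by
      rintro ⟨L', hL', a', b', p'⟩
      apply hp
      rw [line_eq hL ha hb hab, ← line_eq hL' a' b' hab]
      exact p'
    have h1 := affine_nc hK g hg hab hpa n1
    have hpq : p ≠ a + b + p := by
      intro e
      apply hab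
      have : a + b = 0 := by
        have h2 : 0 + p = (a + b) + p := by rw [zero_add]; exact e
        exact (add_right_cancel h2).symm
      exact add_right_cancel (this.trans (two' b).symm)
    have hpc : p ≠ c := fun e => hp (e ▸ hc)
    have n2 : ¬ ∃ L ∈ Ls K V, p ∈ L ∧ a + b + p ∈ L ∧ c ∈ L := by
      rintro ⟨L', hL', p', q', c'⟩
      rw [line_eq hL' p' q' hpq] at c'
      rw [line_eq hL ha hb hab] at hc
      obtain ⟨s, hs⟩ := c'
      obtain ⟨t, ht⟩ := hc
      apply hp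
      rw [line_eq hL ha hb hab]
      refine ⟨t - s, ?_⟩
      have e : p = c - s • (a + b + p - p) := by rw [hs]; module
      rw [e, ht]
      linear_combination (norm := module) (-s) • two' a
    have h2 := affine_nc hK g hg hpq hpc n2
    have e1 : p + (a + b + p) + c = a + b + c := by
      linear_combination (norm := module) two' p
    rw [e1, h1] at h2
    rw [h2]
    linear_combination (norm := module) two' (g p)
  · exact affine_nc hK g hg hab hac h

lemma pres_of {V : Type} {B : Set (Set V)} (g : Equiv.Perm V) (h1 : ∀ L ∈ B, g '' L ∈ B)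
    (h2 : ∀ L ∈ B, g.symm '' L ∈ B) : Preserves g B := by
  apply Set.Subset.antisymm
  · rintro _ ⟨L, hL, rfl⟩; exact h1 L hL
  · intro L hL; exact ⟨_, h2 L hL, by simp [Set.image_image]⟩

lemma Qs_map [CharP K 2] (hK : ∃ w : K, w ≠ 0 ∧ w ≠ 1) (hV : ∀ L ∈ Ls K V, ∃ p, p ∉ L)
    (g : Equiv.Perm V) (hg : ∀ L ∈ Ls K V, g '' L ∈ Ls K V) : ∀ S ∈ Qs V, g '' S ∈ Qs V := by
  rintro _ ⟨a, b, c, h1, h2, h3, rfl⟩
  refine ⟨g a, g b, g c, g.injective.ne h1, g.injective.ne h2, g.injective.ne h3, ?_⟩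
  simp only [Set.image_insert_eq, Set.image_singleton, affine hK hV g hg h1 h2]

lemma Qs_eq {V : Type} [AddCommGroup V] (two : ∀ x : V, x + x = 0) {S : Set V} (hS : S ∈ Qs V)
    {x y z : V} (hx : x ∈ S) (hy : y ∈ S) (hz : z ∈ S)
    (h1 : x ≠ y) (h2 : x ≠ z) (h3 : y ≠ z) : S = {x, y, z, x + y + z} := by
  obtain ⟨a, b, c, -, -, -, rfl⟩ := hS
  have key : ∀ p q r s : V, p + q + r + s = 0 → p + q + r = s := fun p q r s h =>
    add_right_cancel (h.trans (two s).symm)
  have z0 : ∀ p q r s : V, p + q + r + s = a + b + c + (a + b + c) → p + q + r = s :=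
    fun p q r s h => key p q r s (h.trans (two _))
  obtain ⟨d, hd⟩ : ∃ d, d = a + b + c := ⟨_, rfl⟩
  rw [← hd] at hx hy hz ⊢
  have z1 : ∀ p q r s : V, p + q + r + s = a + b + c + d → p + q + r = s := hd ▸ z0
  clear hd z0 key
  simp only [Set.mem_insert_iff, Set.mem_singleton_iff] at hx hy hz
  rcases hx with rfl | rfl | rfl | rfl <;> rcases hy with rfl | rfl | rfl | rfl <;>
    (try exact absurd rfl h1) <;> rcases hz with rfl | rfl | rfl | rfl <;>
    (try exact absurd rfl h2) <;> (try exact absurd rfl h3) <;>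
    first
      | (rw [z1 _ _ _ a (by abel)]; ext; simp only [Set.mem_insert_iff, Set.mem_singleton_iff]; tauto)
      | (rw [z1 _ _ _ b (by abel)]; ext; simp only [Set.mem_insert_iff, Set.mem_singleton_iff]; tauto)
      | (rw [z1 _ _ _ c (by abel)]; ext; simp only [Set.mem_insert_iff, Set.mem_singleton_iff]; tauto)
      | (rw [z1 _ _ _ d (by abel)]; ext; simp only [Set.mem_insert_iff, Set.mem_singleton_iff]; tauto)
      | rw [z1 _ _ _ d (by abel)]

lemma lin_map (T : V ≃ₗ[K] V) (p : V) (g : Equiv.Perm V) (hg : ∀ x, g x = T x + p) :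
    ∀ L ∈ Ls K V, g '' L ∈ Ls K V := by
  rintro _ ⟨a, v, hv, rfl⟩
  refine ⟨g a, T v, by simpa using hv, ?_⟩
  ext z
  constructor
  · rintro ⟨_, ⟨t, rfl⟩, rfl⟩
    exact ⟨t, by simp only [hg, map_add, map_smul]; abel⟩
  · rintro ⟨t, rfl⟩
    exact ⟨_, ⟨t, rfl⟩, by simp only [hg, map_add, map_smul]; abel⟩

variable (K) in
lemma trans_lin (u u' : V) (hu : u ≠ 0) (hu' : u' ≠ 0) : ∃ T : V ≃ₗ[K] V, T u = u' := by
  obtain ⟨f, h1, h2⟩ : ∃ f : Module.Dual K V, f u ≠ 0 ∧ f u' ≠ 0 := by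
    obtain ⟨f, hf⟩ := Module.Projective.exists_dual_ne_zero K hu
    obtain ⟨g, hg⟩ := Module.Projective.exists_dual_ne_zero K hu'
    by_cases a : f u' = 0
    · by_cases b : g u = 0
      · exact ⟨f + g, by simpa [b] using hf, by simpa [a] using hg⟩
      · exact ⟨g, b, hg⟩
    · exact ⟨f, hf, a⟩
  refine ⟨LinearEquiv.ofLinearMap (LinearMap.id + f.smulRight ((f u)⁻¹ • (u' - u)))
    (LinearMap.id - f.smulRight ((f u')⁻¹ • (u' - u))) ?_ ?_, ?_⟩
  · refine LinearMap.ext fun x => ?_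
    simp only [LinearMap.comp_apply, LinearMap.add_apply, LinearMap.sub_apply, LinearMap.id_apply,
      LinearMap.smulRight_apply, map_sub, map_smul]
    match_scalars <;> field_simp <;> ring
  · refine LinearMap.ext fun x => ?_
    simp only [LinearMap.comp_apply, LinearMap.add_apply, LinearMap.sub_apply, LinearMap.id_apply,
      LinearMap.smulRight_apply, map_sub, map_add, map_smul]
    match_scalars <;> field_simp <;> ring
  · simp [smul_smul, h1]

lemma off_line {u v : V} (huv : LinearIndependent K ![u, v]) : ∀ L ∈ Ls K V, ∃ p, p ∉ L := by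
  rintro _ ⟨a, d, hd, rfl⟩
  by_contra hcon
  push Not at hcon
  obtain ⟨s, hs⟩ := hcon (a + u)
  obtain ⟨t, ht⟩ := hcon (a + v)
  have hu : u = s • d := add_left_cancel hs
  have hv : v = t • d := add_left_cancel ht
  rw [LinearIndependent.pair_iff] at huv
  obtain ⟨h1, h2⟩ := huv t (-s) (by rw [hu, hv]; module)
  have h3 : s = 0 := neg_eq_zero.1 h2
  have := huv 1 0 (by rw [hu, h3]; simp)
  exact one_ne_zero this.1

/-- The affine lines and the parallelograms. -/
theorem main [CharP K 2] (hK : ∃ w : K, w ≠ 0 ∧ w ≠ 1)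
    (hV : ∃ u v : V, LinearIndependent K ![u, v]) :
    Steiner 2 (Ls K V) ∧ Steiner 3 (Qs V) ∧ AutTransitive 2 (Ls K V) ∧
      ∀ g : Equiv.Perm V, Preserves g (Ls K V) → Preserves g (Qs V) := by
  classical
  have two' := two (K := K) (V := V)
  obtain ⟨u, v, huv⟩ := hV
  have hoff := off_line huv
  have hu0 : u ≠ 0 := by
    intro h
    rw [LinearIndependent.pair_iff] at huv
    exact one_ne_zero (huv 1 0 (by rw [h]; simp)).1
  obtain ⟨p, hp⟩ := hoff (line K 0 u) ⟨_, _, hu0, rfl⟩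
  have hp0 : p ≠ 0 := fun h => hp ⟨0, by rw [h]; simp⟩
  have hpu : p ≠ u := fun h => hp ⟨1, by rw [h]; simp⟩
  refine ⟨⟨?_, ?_, ?_⟩, ⟨?_, ?_, ?_⟩, ?_, ?_⟩
  · rintro _ ⟨a, v, hv, rfl⟩
    obtain ⟨w, w0, w1⟩ := hK
    have inj : ∀ s t : K, s ≠ t → a + s • v ≠ a + t • v := fun s t h e =>
      h (smul_left_injective K hv (add_left_cancel e))
    have : ({a + (0 : K) • v, a + (1 : K) • v, a + w • v} : Set V).encard = 3 :=
      Set.encard_eq_three.2 ⟨_, _, _, inj _ _ zero_ne_one, inj _ _ w0.symm, inj _ _ w1.symm, rfl⟩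
    refine this.symm.le.trans (Set.encard_le_encard ?_)
    rintro _ (rfl | rfl | rfl) <;> exact ⟨_, rfl⟩
  · refine ⟨line K 0 u, ⟨_, _, hu0, rfl⟩, line K 0 p, ⟨_, _, hp0, rfl⟩, fun h => hp ?_⟩
    rw [h]
    exact ⟨1, by simp⟩
  · intro s hs
    obtain ⟨x, y, h, rfl⟩ := Finset.card_eq_two.1 hs
    refine ⟨line K x (y - x), ⟨line_mem h, ?_⟩, fun L hL => line_eq hL.1 (hL.2 (by simp))
      (hL.2 (by simp)) h⟩
    simp [Set.insert_subset_iff, left_mem, right_mem]
  · rintro _ ⟨a, b, c, h1, h2, h3, rfl⟩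
    have a1 : a ≠ a + b + c := (ne4 two' h3).symm
    have a2 : b ≠ a + b + c := by rw [add_comm a b]; exact (ne4 two' h2).symm
    have a3 : c ≠ a + b + c := by rw [add_comm, ← add_assoc]; exact (ne4 two' h1).symm
    rw [Set.encard_insert_of_notMem (by simp [h1, h2, a1]),
      Set.encard_insert_of_notMem (by simp [h3, a2]), Set.encard_pair a3]
    norm_num
  · obtain ⟨w, w0, w1⟩ := hK
    have q1 : w • u ≠ 0 := smul_ne_zero w0 hu0
    have q2 : u ≠ w • u := by
      intro e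
      apply w1
      have h1 : (1 : K) • u = w • u := by rw [one_smul]; exact e
      exact (smul_left_injective K hu0 h1).symm
    refine ⟨_, ⟨0, u, w • u, hu0.symm, q1.symm, q2, rfl⟩,
      _, ⟨0, u, p, hu0.symm, hp0.symm, hpu.symm, rfl⟩, fun h => hp ?_⟩
    have hm : p ∈ ({0, u, w • u, 0 + u + w • u} : Set V) := by rw [h]; simp
    rcases hm with h | h | h | h
    · exact ⟨0, by rw [h]; simp⟩
    · exact ⟨1, by rw [h]; simp⟩
    · exact ⟨w, by rw [h]; simp⟩
    · exact ⟨1 + w, by rw [h]; module⟩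
  · intro s hs
    obtain ⟨x, y, z, h1, h2, h3, rfl⟩ := Finset.card_eq_three.1 hs
    refine ⟨_, ⟨⟨x, y, z, h1, h2, h3, rfl⟩, ?_⟩, fun S hS => Qs_eq two' hS.1 (hS.2 (by simp))
      (hS.2 (by simp)) (hS.2 (by simp)) h1 h2 h3⟩
    simp [Set.insert_subset_iff]
  · intro x y
    obtain ⟨T, hT⟩ := trans_lin K (x 1 - x 0) (y 1 - y 0)
      (sub_ne_zero.2 (x.injective.ne (by decide))) (sub_ne_zero.2 (y.injective.ne (by decide)))
    refine ⟨T.toEquiv.trans (Equiv.addRight (y 0 - T (x 0))), pres_of _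
      (lin_map T _ _ fun _ => rfl) (lin_map T.symm (-T.symm (y 0 - T (x 0))) _ fun z => ?_), ?_⟩
    · rw [Equiv.symm_apply_eq]
      simp
      abel
    · intro i
      rw [map_sub] at hT
      fin_cases i
      · simp
      · simp; linear_combination (norm := module) hT
  · intro g hg
    have h1 : ∀ L ∈ Ls K V, g '' L ∈ Ls K V := fun L hL => hg ▸ Set.mem_image_of_mem _ hL
    have h2 : ∀ L ∈ Ls K V, g.symm '' L ∈ Ls K V := fun L hL => by
      rw [← hg] at hL
      obtain ⟨L', hL', rfl⟩ := hL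
      simpa [Set.image_image] using hL'
    exact pres_of g (Qs_map hK hoff g h1) (Qs_map hK hoff g.symm h2)

lemma line_encard (L : Set V) (hL : L ∈ Ls K V) : L.encard = ENat.card K := by
  obtain ⟨a, v, hv, rfl⟩ := hL
  have inj : Function.Injective (fun t : K => a + t • v) := fun s t e =>
    smul_left_injective K hv (add_left_cancel e)
  have : line K a v = Set.range (fun t : K => a + t • v) := by
    ext x; constructor
    · rintro ⟨t, rfl⟩; exact ⟨t, rfl⟩
    · rintro ⟨t, rfl⟩; exact ⟨t, rfl⟩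
  rw [this, ← Set.image_univ, inj.encard_image, Set.encard_univ]

lemma quad_encard {V : Type} [AddCommGroup V] (two : ∀ x : V, x + x = 0) (S : Set V)
    (hS : S ∈ Qs V) : S.encard = 4 := by
  obtain ⟨a, b, c, h1, h2, h3, rfl⟩ := hS
  have a1 : a ≠ a + b + c := (ne4 two h3).symm
  have a2 : b ≠ a + b + c := by rw [add_comm a b]; exact (ne4 two h2).symm
  have a3 : c ≠ a + b + c := by rw [add_comm, ← add_assoc]; exact (ne4 two h1).symm
  rw [Set.encard_insert_of_notMem (by simp [h1, h2, a1]),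
    Set.encard_insert_of_notMem (by simp [h3, a2]), Set.encard_pair a3]
  norm_num

end

/-- an example for every block size `|K|` -/
theorem example_of (K : Type) [Field K] [CharP K 2] [Countable K] (hK : ∃ w : K, w ≠ 0 ∧ w ≠ 1) :
    ∃ (Ω : Type) (_ : Countable Ω) (_ : Infinite Ω) (B C : Set (Set Ω)),
      Steiner 2 B ∧ Steiner 3 C ∧ (∀ b ∈ B, b.encard = ENat.card K) ∧ (∀ c ∈ C, c.encard = 4) ∧
      AutTransitive 2 B ∧ ∀ g : Equiv.Perm Ω, Preserves g B → Preserves g C := by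
  obtain ⟨h1, h2, h3, h4⟩ := main (K := K) (V := ℕ →₀ K) hK
    ⟨Finsupp.single 0 1, Finsupp.single 1 1, by
      rw [LinearIndependent.pair_iff]
      intro s t h
      have e0 := congrArg (fun f : ℕ →₀ K => f 0) h
      have e1 := congrArg (fun f : ℕ →₀ K => f 1) h
      simp at e0 e1
      exact ⟨e0, e1⟩⟩
  exact ⟨ℕ →₀ K, inferInstance, inferInstance, _, _, h1, h2, line_encard,
    quad_encard (two (K := K)), h3, h4⟩

theorem ex_top : ∃ (K : Type) (_ : Field K) (_ : CharP K 2), Countable K ∧ Infinite K := by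
  refine ⟨AlgebraicClosure (ZMod 2), inferInstance,
    charP_of_injective_algebraMap (algebraMap (ZMod 2) (AlgebraicClosure (ZMod 2))).injective 2,
    ?_, IsAlgClosed.instInfinite⟩
  rw [← Cardinal.mk_le_aleph0_iff]
  refine (Algebra.IsAlgebraic.cardinalMk_le_max (ZMod 2) (AlgebraicClosure (ZMod 2))).trans ?_
  exact max_le (Cardinal.mk_le_aleph0_iff.2 inferInstance) le_rfl

/-- In every example `k < l`. -/
theorem lt_of_preserved {Ω : Type} [Infinite Ω] (k l : ℕ) (B C : Set (Set Ω))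
    (hC : Steiner l C) (hT : AutTransitive k B)
    (hp : ∀ g : Equiv.Perm Ω, Preserves g B → Preserves g C) : k ≤ l := by
  classical
  by_contra hlt
  push Not at hlt
  obtain ⟨h1, ⟨b1, hb1, b2, hb2, hne⟩, h3⟩ := hC
  obtain ⟨b, hb, y, hy⟩ : ∃ b ∈ C, ∃ y, y ∉ b := by
    by_contra hcon
    push Not at hcon
    apply hne
    rw [Set.eq_univ_of_forall (hcon b1 hb1), Set.eq_univ_of_forall (hcon b2 hb2)]
  obtain ⟨s0, hs0, hs0c⟩ := Set.exists_subset_encard_eq (h1 b hb)
  have hfin : s0.Finite := Set.finite_of_encard_eq_coe hs0c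
  obtain ⟨s, rfl⟩ : ∃ s : Finset Ω, (s : Set Ω) = s0 := ⟨hfin.toFinset, by simp⟩
  have hsc : s.card = l + 1 := by
    rw [Set.encard_coe_eq_coe_finsetCard] at hs0c
    exact_mod_cast hs0c
  obtain ⟨x, hx⟩ : s.Nonempty := by
    rw [← Finset.card_pos, hsc]; omega
  have hys : y ∉ s := fun h => hy (hs0 h)
  obtain ⟨t, hst, htc⟩ := Infinite.exists_superset_card_eq (insert y s) (k + 1) (by
    rw [Finset.card_insert_of_notMem hys, hsc]; omega)
  have hyt : y ∈ t := hst (Finset.mem_insert_self _ _)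
  have htc' : (t.erase y).card = k := by rw [Finset.card_erase_of_mem hyt, htc]; rfl
  let X : Fin k ↪ Ω := ((t.erase y).equivFinOfCardEq htc').symm.toEmbedding.trans
    (Function.Embedding.subtype _)
  have hX : ∀ z ∈ s, ∃ i, X i = z := by
    intro z hz
    have hz' : z ∈ t.erase y :=
      Finset.mem_erase.2 ⟨fun e => hys (e ▸ hz), hst (Finset.mem_insert_of_mem hz)⟩
    exact ⟨(t.erase y).equivFinOfCardEq htc' ⟨z, hz'⟩, by simp [X]⟩
  obtain ⟨g, hg, hgX⟩ := hT X (X.trans (Equiv.swap x y).toEmbedding)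
  have hgx : ∀ z ∈ s, g z = Equiv.swap x y z := by
    intro z hz
    obtain ⟨i, rfl⟩ := hX z hz
    exact hgX i
  have hgC := hp g hg
  have hgb : g '' b ∈ C := by
    rw [← hgC]; exact ⟨b, hb, rfl⟩
  obtain ⟨b', _, huniq⟩ := h3 (s.erase x) (by rw [Finset.card_erase_of_mem hx, hsc]; rfl)
  have e1 : b = b' := huniq b ⟨hb, fun z hz => hs0 (Finset.mem_of_mem_erase hz)⟩
  have e2 : g '' b = b' := huniq (g '' b) ⟨hgb, fun z hz => by
    have hz1 : z ∈ s := Finset.mem_of_mem_erase hz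
    have hz2 : z ≠ x := Finset.ne_of_mem_erase hz
    have hz3 : z ≠ y := fun e => hys (e ▸ hz1)
    refine ⟨z, hs0 hz1, ?_⟩
    rw [hgx z hz1, Equiv.swap_apply_of_ne_of_ne hz2 hz3]⟩
  apply hy
  have : g x ∈ g '' b := ⟨x, hs0 hx, rfl⟩
  rw [e2, ← e1, hgx x hx, Equiv.swap_apply_left] at this
  exact this

/-- (1) For every field `K` of characteristic two with more than two elements and every vector
space `V` over `K` of dimension at least two the affine lines form a Steiner 2-system with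
2-transitive automorphism group which preserves the Steiner 3-system of the sets
`{a, b, c, a + b + c}`.  (2) For `q = 2^m`, `m ≥ 2`, and for `q = ∞` there are examples on a
countably infinite set in which all blocks of the 2-system have size `q` and all blocks of the
3-system have size four.  (3) In every example one has `k < l`. -/
theorem result :
    (∀ (K V : Type) [Field K] [CharP K 2] [AddCommGroup V] [Module K V],
      (∃ w : K, w ≠ 0 ∧ w ≠ 1) → (∃ u v : V, LinearIndependent K ![u, v]) →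
      Steiner 2 (Ls K V) ∧ Steiner 3 (Qs V) ∧ AutTransitive 2 (Ls K V) ∧
        ∀ g : Equiv.Perm V, Preserves g (Ls K V) → Preserves g (Qs V)) ∧
    (∀ q : ℕ∞, (q = ⊤ ∨ ∃ m : ℕ, 2 ≤ m ∧ q = 2 ^ m) →
      ∃ (Ω : Type) (_ : Countable Ω) (_ : Infinite Ω) (B C : Set (Set Ω)),
        Steiner 2 B ∧ Steiner 3 C ∧ (∀ b ∈ B, b.encard = q) ∧ (∀ c ∈ C, c.encard = 4) ∧
        AutTransitive 2 B ∧ ∀ g : Equiv.Perm Ω, Preserves g B → Preserves g C) ∧
    (∀ (k l : ℕ) (Ω : Type) [Countable Ω] [Infinite Ω] (B C : Set (Set Ω)), 2 ≤ k → 2 ≤ l →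
      k ≠ l → Steiner k B → Steiner l C → AutTransitive k B →
      (∀ g : Equiv.Perm Ω, Preserves g B → Preserves g C) → k < l) := by
  refine ⟨fun K V _ _ _ _ hK hV => main hK hV, ?_, ?_⟩
  · rintro q (rfl | ⟨m, hm, rfl⟩)
    · obtain ⟨K, _, _, h1, h2⟩ := ex_top
      have hK : ∃ w : K, w ≠ 0 ∧ w ≠ 1 := by
        classical
        obtain ⟨w, hw⟩ := Infinite.exists_notMem_finset ({0, 1} : Finset K)
        simp only [Finset.mem_insert, Finset.mem_singleton, not_or] at hw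
        exact ⟨w, hw⟩
      have := example_of K hK
      rwa [ENat.card_eq_top_of_infinite] at this
    · have hcard : Nat.card (GaloisField 2 m) = 2 ^ m := GaloisField.card 2 m (by omega)
      have hfin : Finite (GaloisField 2 m) := Nat.finite_of_card_ne_zero (by rw [hcard]; positivity)
      have hK : ∃ w : GaloisField 2 m, w ≠ 0 ∧ w ≠ 1 := by
        classical
        have := Fintype.ofFinite (GaloisField 2 m)
        have h4 : 2 < Fintype.card (GaloisField 2 m) := by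
          rw [← Nat.card_eq_fintype_card, hcard]
          calc 2 < 2 ^ 2 := by norm_num
            _ ≤ 2 ^ m := Nat.pow_le_pow_right (by norm_num) hm
        by_contra hcon
        push Not at hcon
        have hsub : (Finset.univ : Finset (GaloisField 2 m)) ⊆ {0, 1} := by
          intro w _
          by_cases hw : w = 0
          · simp [hw]
          · simp [hcon w hw]
        have := (Finset.card_le_card hsub).trans Finset.card_le_two
        rw [Finset.card_univ] at this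
        omega
      have := example_of (GaloisField 2 m) hK
      rwa [ENat.card_eq_coe_natCard, hcard, Nat.cast_pow, Nat.cast_ofNat] at this
  · intro k l Ω _ _ B C _ _ hkl _ hC hT hp
    exact lt_of_le_of_ne (lt_of_preserved k l B C hC hT hp) hkl

end Pool.Agent.Results.MP_19fe04_lc.AllFieldsOfCharTwo
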